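import Mathlib

/-!
# Prenex sentences and their spectra
-/

set_option autoImplicit false

namespace Pool.Agent.H71.PC

/-- Quantifier-free formulas. Variables and relation symbols are named by numbers; a relation symbol is
applied to a list of variables. -/
inductive QF : Type
  | rel (i : ℕ) (xs : List ℕ) : QF
  | eq (x y : ℕ) : QF
  | neg (φ : QF) : QF
  | and (φ ψ : QF) : QF

/-- Only the variables `0, …, k - 1` occur. -/
def QF.Vars (k : ℕ) : QF → Prop
  | .rel _ xs => ∀ x ∈ xs, x < k
  | .eq x y => x < k ∧ y < k
  | .neg φ => φ.Vars k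
  | .and φ ψ => φ.Vars k ∧ ψ.Vars k

/-- All relation symbols are of arity `1, …, k`. -/
def QF.Arity (k : ℕ) : QF → Prop
  | .rel _ xs => 1 ≤ xs.length ∧ xs.length ≤ k
  | .eq _ _ => True
  | .neg φ => φ.Arity k
  | .and φ ψ => φ.Arity k ∧ ψ.Arity k

/-- Satisfaction in the structure with the relations `R`. -/
def QF.Sat {α : Type} (R : ℕ → List α → Prop) (v : ℕ → α) : QF → Prop
  | .rel i xs => R i (xs.map v)
  | .eq x y => v x = v y
  | .neg φ => ¬ φ.Sat R v
  | .and φ ψ => φ.Sat R v ∧ ψ.Sat R v

/-- Satisfaction of the formula with the quantifier prefix `π` (`true` is a universal quantifier,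
`false` is an existential quantifier) and the quantifier-free formula `φ`; the quantifiers bind the
variables `k, k + 1, …`. -/
def Pre {α : Type} (R : ℕ → List α → Prop) (φ : QF) : List Bool → ℕ → (ℕ → α) → Prop
  | [], _, v => φ.Sat R v
  | true :: π, k, v => ∀ a, Pre R φ π (k + 1) (Function.update v k a)
  | false :: π, k, v => ∃ a, Pre R φ π (k + 1) (Function.update v k a)

/-- The spectrum: the sizes of the finite models of the sentence with the prefix `π` and the
quantifier-free formula `φ`. -/
def Spec (π : List Bool) (φ : QF) : Set ℕ :=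
  {n | 0 < n ∧ ∃ R : ℕ → List (Fin n) → Prop, ∀ v : ℕ → Fin n, Pre R φ π 0 v}

/-- The prefix is of the form `∃…∃∀…∀` or `∃…∃∀∃…∃`. -/
def Easy (π : List Bool) : Prop :=
  ∃ a b, π = List.replicate a false ++ List.replicate b true ∨
    π = List.replicate a false ++ true :: List.replicate b false

end Pool.Agent.H71.PC
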