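import Pool.Agent.H71.PC.Defs
import Pool.Agent.H71.PX.All

/-!
# The theorem on prefix classes in terms of the definitions of `PC.Defs`
-/

set_option autoImplicit false

namespace Pool.Agent.H71.PC

open Pool.Agent.H69.Sp Pool.Agent.H8.JS

/-- translation -/
def tr : QF → PX.QF
  | .rel i xs => .rel i xs
  | .eq x y => .eq x y
  | .neg φ => .neg (tr φ)
  | .and φ ψ => .and (tr φ) (tr ψ)

/-- translation -/
def rt : PX.QF → QF
  | .rel i xs => .rel i xs
  | .eq x y => .eq x y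
  | .neg φ => .neg (rt φ)
  | .and φ ψ => .and (rt φ) (rt ψ)

theorem tr_rt (φ : PX.QF) : tr (rt φ) = φ := by
  induction φ with
  | rel i xs => rfl
  | eq x y => rfl
  | neg φ ih => simp [rt, tr, ih]
  | and φ ψ ih1 ih2 => simp [rt, tr, ih1, ih2]

theorem tr_vars (k : ℕ) (φ : QF) : (tr φ).Vars k ↔ φ.Vars k := by
  induction φ with
  | rel i xs => rfl
  | eq x y => rfl
  | neg φ ih => exact ih
  | and φ ψ ih1 ih2 => exact and_congr ih1 ih2

theorem tr_una (φ : QF) : (tr φ).Una ↔ φ.Arity 1 := by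
  induction φ with
  | rel i xs =>
    simp only [tr, PX.QF.Una, QF.Arity]
    omega
  | eq x y => rfl
  | neg φ ih => exact ih
  | and φ ψ ih1 ih2 => exact and_congr ih1 ih2

theorem tr_bin (φ : QF) : (tr φ).Bin ↔ φ.Arity 2 := by
  induction φ with
  | rel i xs =>
    simp only [tr, PX.QF.Bin, QF.Arity]
    omega
  | eq x y => rfl
  | neg φ ih => exact ih
  | and φ ψ ih1 ih2 => exact and_congr ih1 ih2

theorem tr_sat {α : Type} (R : ℕ → List α → Prop) (v : ℕ → α) (φ : QF) :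
    (tr φ).Sat R v ↔ φ.Sat R v := by
  induction φ with
  | rel i xs => rfl
  | eq x y => rfl
  | neg φ ih => exact not_congr ih
  | and φ ψ ih1 ih2 => exact and_congr ih1 ih2

theorem tr_pre {α : Type} (R : ℕ → List α → Prop) (φ : QF) : ∀ (π : List Bool) (k : ℕ) (v : ℕ → α),
    (PX.Pre R (tr φ) π k v ↔ Pre R φ π k v)
  | [], _, v => tr_sat R v φ
  | true :: π, k, _ => forall_congr' fun _ => tr_pre R φ π (k + 1) _
  | false :: π, k, _ => exists_congr fun _ => tr_pre R φ π (k + 1) _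

theorem tr_spec (π : List Bool) (φ : QF) : PX.Spec π (tr φ) = Spec π φ := by
  ext n
  exact and_congr Iff.rfl (exists_congr fun R => forall_congr' fun v => tr_pre R φ π 0 v)

/-- The theorem. -/
theorem main :
    (∀ (π : List Bool) (φ : QF), φ.Vars π.length →
      (IsSpectrum (Spec π φ) ∧ lang (Spec π φ) ∈ NE) ∧
      (Easy π ∨ φ.Arity 1 →
        ((Spec π φ).Finite ∨ (Spec π φ)ᶜ.Finite) ∧ IsSpectrum (posCompl (Spec π φ)))) ∧
    ∀ π : List Bool, ¬ Easy π →
      ([true, true, false].Sublist π ∨ [true, false, true].Sublist π) ∧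
      (∀ S : Set ℕ, IsSpectrum S → ∃ (φ : QF) (r : ℕ), φ.Vars π.length ∧ φ.Arity 2 ∧ 0 < r ∧
        Spec π φ = (fun m => m ^ r) '' S ∧
        (IsSpectrum (posCompl (Spec π φ)) ↔ IsSpectrum (posCompl S))) ∧
      ∃ φ : QF, φ.Vars π.length ∧ φ.Arity 2 ∧ NEComplete (Spec π φ) ∧
        (lang (Spec π φ) ∈ coNE ↔ NE = coNE) ∧
        (IsSpectrum (posCompl (Spec π φ)) ↔ NE = coNE) := by
  obtain ⟨h1, h2⟩ := PX.px_main
  have back : ∀ φ : PX.QF, ∀ π, PX.Spec π φ = Spec π (rt φ) := fun φ π => by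
    rw [← tr_spec, tr_rt]
  have bv : ∀ (φ : PX.QF) k, φ.Vars k → (rt φ).Vars k := fun φ k h => by
    rw [← tr_vars, tr_rt]
    exact h
  have bb : ∀ φ : PX.QF, φ.Bin → (rt φ).Arity 2 := fun φ h => by
    rw [← tr_bin, tr_rt]
    exact h
  refine ⟨fun π φ hV => ?_, fun π hπ => ?_⟩
  · have := h1 π (tr φ) ((tr_vars _ _).2 hV)
    rw [tr_spec] at this
    exact ⟨this.1, fun h => this.2 (h.imp id (tr_una φ).2)⟩
  · obtain ⟨a, b, φ, c1, c2, c3, c4, c5⟩ := h2 π hπ
    refine ⟨a, fun S hS => ?_, rt φ, bv φ _ c1, bb φ c2, ?_⟩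
    · obtain ⟨φ, r, d1, d2, d3, d4, d5⟩ := b S hS
      refine ⟨rt φ, r, bv φ _ d1, bb φ d2, d3, ?_, ?_⟩
      · rw [← back]
        exact d4
      · rw [← back]
        exact d5
    · rw [← back]
      exact ⟨c3, c4, c5⟩

end Pool.Agent.H71.PC
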